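import Pool.Agent.Run7.h647.TY.MeanT
import Pool.Agent.Run7.h647.EN.Pack
import Pool.Agent.Run7.h647.EN.Prob

/-! # Empty squares on both sides of the root of a polygon, uniformly in the length -/

set_option autoImplicit false

namespace Run7.h647.TY

open scoped Classical
open Finset
open Pool.Agent.TH546.SAW (PL mem_PL)
open Run7.h738.PG Run7.h738.ND Run7.h647.EN

/-- many squares of both kinds in the square about the root -/
def Good {m : ℕ} (f : ZMod m → ℤ × ℤ) (r R c : ℕ) : Prop :=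
  (∃ j, ¬ Q (f 0) R (f j)) → ∀ η : ZMod 2, ∃ U : Finset (ℤ × ℤ), R ≤ c * r * U.card ∧
    Sqs f r (fun p => ∀ s', I (Fs f s') m p ≠ η) U ∧
    ∀ u ∈ U, ∀ p ∈ sq u r, |p.1 - (f 0).1| ≤ R ∧ |p.2 - (f 0).2| ≤ R

/-- squares near the root -/
theorem loc_typ {N : ℕ} {f : ZMod (2 * N) → ℤ × ℤ} (hf : Loop (2 * N) f)
    {r R L : ℕ} (hr : 1 ≤ r) (hR1 : 1 ≤ R) (hL : 2 * (2 * R + 1) ^ 2 ≤ L) (hLN : L < N)
    (hT : 4 * r * (TT (4 * ((r + 1) / 2)) L f + 1) ≤ R) : Good f r R 4 := by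
  intro _ η
  set d := (r + 1) / 2 with hd
  have hd1 : 1 ≤ d := by omega
  have hpos : 1 ≤ (2 * R + 1) ^ 2 := Nat.one_le_pow _ _ (by omega)
  obtain ⟨b, hb1, hb2, hb3, hb4⟩ := exists_time (w := 4 * d) hf.2.1 hL hLN.le
  set X := Z0 (4 * d) L f + Zb (4 * d) L b f + YF (4 * d) L f with hX
  obtain ⟨M, hM, hH⟩ := holes_gen (r := r) (by omega) hf hR1 hd1 (by omega) (a := b) (B := X)
    (by omega) hb3 (PR_card hb2 (by omega)) η
  obtain ⟨U, hU, hS, hB⟩ := Holes_Sqs hr hH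
  refine ⟨U, ?_, hS, hB⟩
  rw [hU]
  have hXT : (X : ℝ) ≤ TT (4 * d) L f := by
    rw [hX]
    unfold TT
    push_cast
    linarith
  have h1 : R + 1 < 2 * d * ((R + 1) / (2 * d) + 1) :=
    Nat.lt_mul_div_succ _ (by omega)
  have h2 : R + 1 ≤ 2 * r * (M + X + 1) := by
    calc R + 1 ≤ 2 * d * ((R + 1) / (2 * d) + 1) := h1.le
      _ ≤ 2 * r * (M + X + 1) := Nat.mul_le_mul (by omega) (by omega)
  have h3 : (R : ℝ) ≤ 2 * r * (M + X + 1) := by
    have : ((R + 1 : ℕ) : ℝ) ≤ ((2 * r * (M + X + 1) : ℕ) : ℝ) := by exact_mod_cast h2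
    push_cast at this
    linarith
  have h4 : 4 * (r : ℝ) * (X + 1) ≤ R := by
    refine le_trans ?_ hT
    refine mul_le_mul_of_nonneg_left ?_ (by positivity)
    linarith
  have h5 : (R : ℝ) ≤ 4 * r * M := by
    have e : 2 * (r : ℝ) * (M + X + 1) = 2 * r * M + (4 * r * (X + 1)) / 2 := by ring
    rw [e] at h3
    linarith
  exact_mod_cast h5

theorem L_le {R : ℕ} (hR : 2 ≤ R) : 2 * (2 * R + 1) ^ 2 + 1 ≤ R ^ 6 := by
  have h1 : 2 * (2 * R + 1) ≤ 5 * R := by omega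
  have h2 : (2 * (2 * R + 1)) ^ 2 ≤ (5 * R) ^ 2 := Nat.pow_le_pow_left h1 2
  have h3 : 16 ≤ R ^ 4 := by
    calc 16 = 2 ^ 4 := by norm_num
      _ ≤ R ^ 4 := Nat.pow_le_pow_left hR 4
  have h4 : 16 * R ^ 2 ≤ R ^ 6 := by
    calc 16 * R ^ 2 ≤ R ^ 4 * R ^ 2 := Nat.mul_le_mul_right _ h3
      _ = R ^ 6 := by ring
  have h5 : 4 ≤ R ^ 2 := by nlinarith
  nlinarith

theorem log_facts {R : ℕ} (hR : 2 ≤ R) : 0.69 < Real.log R ∧ 1 ≤ 3 * Real.log R ^ 2 ∧
    Real.log R ≤ 2 * Real.log R ^ 2 := by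
  have hR' : (2 : ℝ) ≤ R := by exact_mod_cast hR
  have h1 : (0.69 : ℝ) < Real.log R := by
    have h2 := Real.log_two_gt_d9
    have h3 : Real.log 2 ≤ Real.log R := Real.log_le_log (by norm_num) hR'
    linarith
  refine ⟨h1, by nlinarith, by nlinarith⟩

theorem log_le_six {n R : ℕ} (hn : 1 ≤ n) (h : n ≤ R ^ 6) :
    Real.log n ≤ 6 * Real.log R := by
  have h1 : Real.log n ≤ Real.log ((R : ℝ) ^ 6) := by
    refine Real.log_le_log (by exact_mod_cast hn) ?_
    exact_mod_cast h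
  rw [Real.log_pow] at h1
  push_cast at h1
  exact h1

/-- **one scale** -/
theorem one_scale : ∃ K : ℝ, 2 ≤ K ∧ ∀ n r R : ℕ, 2 ≤ n → 1 ≤ r → 2 ≤ R →
    (({f | Loop (2 * n) f ∧ ¬ Good f r R 4} : Set (ZMod (2 * n) → ℤ × ℤ)).ncard : ℝ) ≤
      K ^ r * Real.log R ^ 2 / R *
        (({f | Loop (2 * n) f} : Set (ZMod (2 * n) → ℤ × ℤ)).ncard : ℝ) := by
  obtain ⟨K0, hK0, h0⟩ := poly_all_w
  obtain ⟨K1, hK1, h1⟩ := mean_T
  have hK04 : 1 < K0 ^ 4 := one_lt_pow₀ hK0 (by norm_num)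
  have hK14 : 1 < K1 ^ 4 := one_lt_pow₀ hK1 (by norm_num)
  refine ⟨1216 * K0 ^ 4 + 336 * K1 ^ 4, by linarith, fun n r R hn hr hR => ?_⟩
  set K := 1216 * K0 ^ 4 + 336 * K1 ^ 4 with hK
  have hKpos : 1 ≤ K := by linarith
  have hKr : K ≤ K ^ r := le_self_pow₀ hKpos (by omega)
  obtain ⟨g1, g2, g3⟩ := log_facts hR
  have hR0 : (0 : ℝ) < R := by exact_mod_cast (show 0 < R by omega)
  set l := Real.log R ^ 2 with hl
  have hl0 : 0 < l := by positivity
  set ℓ := (({f | Loop (2 * n) f} : Set (ZMod (2 * n) → ℤ × ℤ)).ncard : ℝ) with hℓ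
  have hℓ0 : 0 ≤ ℓ := Nat.cast_nonneg _
  have hfin := Loop_finite (2 * n) (by omega)
  have htriv : (({f | Loop (2 * n) f ∧ ¬ Good f r R 4} :
      Set (ZMod (2 * n) → ℤ × ℤ)).ncard : ℝ) ≤ ℓ := by
    rw [hℓ, Nat.cast_le]
    exact Set.ncard_le_ncard (fun f hf => hf.1) hfin
  by_cases hbig : 1 ≤ K ^ r * l / R
  · calc _ ≤ ℓ := htriv
      _ = 1 * ℓ := (one_mul _).symm
      _ ≤ _ := mul_le_mul_of_nonneg_right hbig hℓ0
  rw [not_le, div_lt_one hR0] at hbig
  set L := 2 * (2 * R + 1) ^ 2 with hL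
  have hL6 := L_le hR
  rw [← hL] at hL6
  have hLpos : 1 ≤ L := by
    have : 1 ≤ (2 * R + 1) ^ 2 := Nat.one_le_pow _ _ (by omega)
    omega
  rcases Nat.lt_or_ge L n with hLn | hLn
  · -- long polygons
    set w := 4 * ((r + 1) / 2) with hw
    have h2 := h1 w L n (by omega) hLpos hLn.le (by omega)
    have hPL : ((PL n).card : ℝ) = ℓ := by
      rw [hℓ, ← Set.ncard_coe_finset]
      congr 2
      ext f
      rw [mem_coe, mem_PL (by omega)]
      rfl
    have e1 : (({f | Loop (2 * n) f ∧ ¬ Good f r R 4} :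
        Set (ZMod (2 * n) → ℤ × ℤ)).ncard : ℝ) ≤
        ((PL n).filter (fun f => (R : ℝ) < 4 * r * (TT w L f + 1))).card := by
      rw [Nat.cast_le, ← Set.ncard_coe_finset]
      refine Set.ncard_le_ncard ?_ (Finset.finite_toSet _)
      rintro f ⟨hf1, hf2⟩
      rw [mem_coe, mem_filter, mem_PL (by omega)]
      refine ⟨hf1, ?_⟩
      by_contra hcon
      rw [not_lt] at hcon
      exact hf2 (loc_typ hf1 hr (by omega) le_rfl hLn hcon)
    have e2 : (R : ℝ) * ((PL n).filter (fun f => (R : ℝ) < 4 * r * (TT w L f + 1))).card ≤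
        ∑ f ∈ PL n, 4 * r * (TT w L f + 1) := by
      calc (R : ℝ) * ((PL n).filter (fun f => (R : ℝ) < 4 * r * (TT w L f + 1))).card
          = ∑ f ∈ (PL n).filter (fun f => (R : ℝ) < 4 * r * (TT w L f + 1)), (R : ℝ) := by
            rw [sum_const, nsmul_eq_mul, mul_comm]
        _ ≤ ∑ f ∈ (PL n).filter (fun f => (R : ℝ) < 4 * r * (TT w L f + 1)),
            4 * r * (TT w L f + 1) := sum_le_sum (fun f hf => (mem_filter.1 hf).2.le)
        _ ≤ _ := by
            refine sum_le_sum_of_subset_of_nonneg (filter_subset _ _) (fun f _ _ => ?_)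
            have := TT_nonneg w L f
            positivity
    have e3 : ∑ f ∈ PL n, 4 * (r : ℝ) * (TT w L f + 1) =
        4 * r * (∑ f ∈ PL n, TT w L f + (PL n).card) := by
      rw [← mul_sum, sum_add_distrib]
      simp
    have hlog : Real.log ((L + 1 : ℕ) : ℝ) ≤ 6 * Real.log R := log_le_six (by omega) hL6
    have hlog2 : Real.log ((L + 1 : ℕ) : ℝ) ^ 2 ≤ 36 * l := by
      calc Real.log ((L + 1 : ℕ) : ℝ) ^ 2 ≤ (6 * Real.log R) ^ 2 :=
            pow_le_pow_left₀ (Real.log_natCast_nonneg _) hlog 2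
        _ = 36 * l := by rw [hl]; ring
    have hK1w : K1 ^ w ≤ K1 ^ (4 * r) := pow_le_pow_right₀ hK1.le (by omega)
    have hK1r : (1 : ℝ) ≤ K1 ^ (4 * r) := one_le_pow₀ hK1.le
    have e4 : ∑ f ∈ PL n, TT w L f + (PL n).card ≤ ℓ * (42 * K1 ^ (4 * r) * l) := by
      rw [hPL] at h2 ⊢
      calc ∑ f ∈ PL n, TT w L f + ℓ ≤ ℓ * (K1 ^ w * (1 + Real.log ((L + 1 : ℕ) : ℝ) ^ 2)) + ℓ :=
            add_le_add_left h2 _
        _ ≤ ℓ * (K1 ^ (4 * r) * (3 * l + 36 * l)) + ℓ * (K1 ^ (4 * r) * (3 * l)) := by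
            refine add_le_add ?_ ?_
            · gcongr
            · calc ℓ = ℓ * (1 * 1) := by ring
                _ ≤ _ := by gcongr
        _ = _ := by ring
    have e5 : 168 * (r : ℝ) * K1 ^ (4 * r) ≤ (336 * K1 ^ 4) ^ r := by
      have h7 : (r : ℝ) ≤ 2 ^ r := by
        exact_mod_cast Nat.lt_two_pow_self.le
      have h8 : (168 : ℝ) ≤ 168 ^ r := le_self_pow₀ (by norm_num) (by omega)
      calc 168 * (r : ℝ) * K1 ^ (4 * r) ≤ 168 ^ r * 2 ^ r * K1 ^ (4 * r) := by gcongr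
        _ = _ := by
          rw [mul_pow, ← pow_mul, show (336 : ℝ) = 168 * 2 by norm_num, mul_pow]
    have e6 : (336 * K1 ^ 4) ^ r ≤ K ^ r :=
      pow_le_pow_left₀ (by positivity) (by linarith) r
    rw [div_mul_eq_mul_div, le_div_iff₀ hR0]
    calc _ ≤ (((PL n).filter (fun f => (R : ℝ) < 4 * r * (TT w L f + 1))).card : ℝ) * R :=
          mul_le_mul_of_nonneg_right e1 hR0.le
      _ = (R : ℝ) * ((PL n).filter (fun f => (R : ℝ) < 4 * r * (TT w L f + 1))).card :=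
          mul_comm _ _
      _ ≤ 4 * r * (∑ f ∈ PL n, TT w L f + (PL n).card) := e2.trans e3.le
      _ ≤ 4 * r * (ℓ * (42 * K1 ^ (4 * r) * l)) := mul_le_mul_of_nonneg_left e4 (by positivity)
      _ = (168 * (r : ℝ) * K1 ^ (4 * r)) * l * ℓ := by ring
      _ ≤ K ^ r * l * ℓ := by
          refine mul_le_mul_of_nonneg_right ?_ hℓ0
          exact mul_le_mul_of_nonneg_right (e5.trans e6) hl0.le
  · -- short polygons
    have hlogn : Real.log n ^ 2 ≤ 36 * l := by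
      have h3 : Real.log n ≤ 6 * Real.log R := log_le_six (by omega) (by omega)
      calc Real.log n ^ 2 ≤ (6 * Real.log R) ^ 2 :=
            pow_le_pow_left₀ (Real.log_natCast_nonneg _) h3 2
        _ = 36 * l := by rw [hl]; ring
    have h3 := h0 n hn (Real.log R) (by linarith)
    have hL' : 1 ≤ 3 * (Real.log n ^ 2 + Real.log R) := by
      have := EN.log_ge hn
      linarith
    have hcond : (32 * K0 ^ 4) ^ r * (Real.log n ^ 2 + Real.log R) ≤ R := by
      refine le_trans ?_ hbig.le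
      calc (32 * K0 ^ 4) ^ r * (Real.log n ^ 2 + Real.log R)
          ≤ (32 * K0 ^ 4) ^ r * (38 ^ r * l) := by
            refine mul_le_mul_of_nonneg_left ?_ (by positivity)
            have h38 : (38 : ℝ) ≤ 38 ^ r := le_self_pow₀ (by norm_num) (by omega)
            have : 38 * l ≤ 38 ^ r * l := mul_le_mul_of_nonneg_right h38 hl0.le
            linarith
        _ = (1216 * K0 ^ 4) ^ r * l := by
            rw [show (1216 : ℝ) * K0 ^ 4 = (32 * K0 ^ 4) * 38 by ring, mul_pow _ (38 : ℝ)]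
            ring
        _ ≤ K ^ r * l := by
            refine mul_le_mul_of_nonneg_right ?_ hl0.le
            exact pow_le_pow_left₀ (by positivity) (by linarith) r
    calc (({f | Loop (2 * n) f ∧ ¬ Good f r R 4} : Set (ZMod (2 * n) → ℤ × ℤ)).ncard : ℝ)
        ≤ (({f | Loop (2 * n) f ∧ ∃ (w : ℕ) (s : ZMod (2 * n)) (a : ℕ), 1 ≤ w ∧
          K0 ^ w * (Real.log n ^ 2 + Real.log R) < XA w f s a} :
            Set (ZMod (2 * n) → ℤ × ℤ)).ncard : ℝ) := by
          rw [Nat.cast_le]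
          refine Set.ncard_le_ncard ?_ (hfin.subset (fun f hf => hf.1))
          rintro f ⟨hf1, hf2⟩
          refine ⟨hf1, ?_⟩
          by_contra hcon
          push Not at hcon
          apply hf2
          rintro ⟨j, hj⟩ η
          exact loc_sq hn hf1 hK0 hL' (fun w s a hw => hcon w s a hw) hr hcond hj η
      _ ≤ Real.exp (-Real.log R) * ℓ := h3
      _ ≤ K ^ r * l / R * ℓ := by
          refine mul_le_mul_of_nonneg_right ?_ hℓ0
          rw [Real.exp_neg, Real.exp_log hR0, inv_eq_one_div]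
          refine div_le_div_of_nonneg_right ?_ hR0.le
          nlinarith

end Run7.h647.TY
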