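import Pool.Agent.Run7.h647.TY.Typ

/-! # Means of the numbers of close pairs about the root of a polygon -/

set_option autoImplicit false

namespace Run7.h647.TY

open scoped Classical
open Finset
open Pool.Agent.TH546.SAW hiding avg avg2 entropy variational transfer window_mean max_mean
  loop_mean far_mean PL_lower poly_avg poly_entropy
open Pool.Agent.TH546.SG
open Run7.h738.ND

theorem lag_close : ∃ K : ℝ, 1 < K ∧ ∀ w m N : ℕ, 1 ≤ w → 2 ≤ m → 3 ≤ N →
    ∑ d ∈ Finset.Icc 2 N, (min d m : ℝ) * QQ w N d ≤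
      (PL N).card * (K ^ w * Real.log m ^ 2) := by
  obtain ⟨K, hK, h⟩ := lag_min (p := 2) (by norm_num) CU2 PLo2
  refine ⟨(K + 1) * K0, ?_, fun w m N hw hm hN => ?_⟩
  · have : (1 : ℝ) < K0 := by norm_num [K0]
    nlinarith
  refine (h w _ _ _ (cnt_w w hw) m N hm hN).trans ?_
  have hMM := MM_le w hw
  have hMp := MM_pos (b := 3 * G w) (C := Pf w) (cnt_w w hw).1
  have h5 : K ≤ (K + 1) ^ w := by
    calc K ≤ (K + 1) ^ 1 := by linarith [pow_one (K + 1)]
      _ ≤ (K + 1) ^ w := pow_le_pow_right₀ (by linarith) hw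
  have h6 : K * MM (Sl w) (3 * G w) (Pf w) ≤ ((K + 1) * K0) ^ w := by
    rw [mul_pow]
    exact mul_le_mul h5 hMM hMp.le (by positivity)
  gcongr

theorem QQ_root (w : ℕ) {N : ℕ} (hN : 1 ≤ N) (a : ZMod (2 * N)) (d : ℕ) :
    ((PL N).filter (fun f => D (f a) (f (a + ((d : ℕ) : ZMod (2 * N)))) ≤ w)).card = QQ w N d := by
  have : NeZero (2 * N) := ⟨by omega⟩
  have h := QQ_eq w hN a.val d
  have e1 : ((a.val : ℕ) : ZMod (2 * N)) = a := ZMod.natCast_zmod_val a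
  have e2 : ((a.val + d : ℕ) : ZMod (2 * N)) = a + ((d : ℕ) : ZMod (2 * N)) := by
    rw [Nat.cast_add, e1]
  rw [e1, e2] at h
  exact h

/-- sum over the index pairs -/
theorem IP_sum (L : ℕ) (g : ℕ → ℕ) : ∑ q ∈ IP L, g (q.1 + q.2) ≤ ∑ d ∈ Icc 1 L, d * g d := by
  have hmaps : ∀ q ∈ IP L, q.1 + q.2 ∈ Icc 1 L := by
    intro q hq
    rw [IP, mem_filter, mem_product, mem_Icc, mem_range] at hq
    rw [mem_Icc]
    omega
  rw [← sum_fiberwise_of_maps_to hmaps]
  refine sum_le_sum (fun d _ => ?_)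
  have h1 : ∑ q ∈ (IP L).filter (fun q => q.1 + q.2 = d), g (q.1 + q.2) =
      ((IP L).filter (fun q => q.1 + q.2 = d)).card * g d := by
    rw [← smul_eq_mul, ← sum_const]
    refine sum_congr rfl (fun q hq => ?_)
    rw [(mem_filter.1 hq).2]
  rw [h1]
  refine Nat.mul_le_mul_right _ ?_
  calc ((IP L).filter (fun q => q.1 + q.2 = d)).card ≤ (range d).card := by
        refine card_le_card_of_injOn (fun q => q.2) ?_ ?_
        · intro q hq
          rw [mem_coe, mem_filter, IP, mem_filter, mem_product, mem_Icc, mem_range] at hq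
          rw [mem_coe, mem_range]
          simp only
          omega
        · intro q hq q' hq' h
          rw [mem_coe, mem_filter] at hq hq'
          simp only at h
          have h1 := hq.2
          have h2 := hq'.2
          exact Prod.ext (by omega) h
    _ = d := card_range d

theorem sum_pairs (w L : ℕ) {N : ℕ} (hN : 1 ≤ N) (x : ℕ × ℕ → ZMod (2 * N)) :
    ∑ f ∈ PL N, ((IP L).filter (fun q => D (f (x q))
      (f (x q + ((q.1 + q.2 : ℕ) : ZMod (2 * N)))) ≤ w)).card ≤ ∑ d ∈ Icc 1 L, d * QQ w N d := by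
  refine le_trans (le_of_eq ?_) (IP_sum L (QQ w N))
  simp only [card_filter]
  rw [sum_comm]
  refine sum_congr rfl (fun q _ => ?_)
  rw [← card_filter, QQ_root w hN (x q) (q.1 + q.2)]

theorem sum_Z0 (w L : ℕ) {N : ℕ} (hN : 1 ≤ N) :
    ∑ f ∈ PL N, Z0 w L f ≤ ∑ d ∈ Icc 1 L, d * QQ w N d := by
  refine le_trans (le_of_eq ?_) (sum_pairs w L hN (fun q => -((q.1 : ℕ) : ZMod (2 * N))))
  refine sum_congr rfl (fun f _ => ?_)
  unfold Z0
  congr 1
  refine filter_congr (fun q _ => ?_)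
  have e : -((q.1 : ℕ) : ZMod (2 * N)) + ((q.1 + q.2 : ℕ) : ZMod (2 * N)) =
      ((q.2 : ℕ) : ZMod (2 * N)) := by
    push_cast
    ring
  rw [e]

theorem sum_Zb (w L b : ℕ) {N : ℕ} (hN : 1 ≤ N) :
    ∑ f ∈ PL N, Zb w L b f ≤ ∑ d ∈ Icc 1 L, d * QQ w N d := by
  refine le_trans (le_of_eq ?_) (sum_pairs w L hN
    (fun q => ((b : ℕ) : ZMod (2 * N)) - ((q.2 : ℕ) : ZMod (2 * N))))
  refine sum_congr rfl (fun f _ => ?_)
  unfold Zb
  congr 1
  refine filter_congr (fun q _ => ?_)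
  have e : ((b : ℕ) : ZMod (2 * N)) - ((q.2 : ℕ) : ZMod (2 * N)) +
      ((q.1 + q.2 : ℕ) : ZMod (2 * N)) = ((b : ℕ) : ZMod (2 * N)) + ((q.1 : ℕ) : ZMod (2 * N)) := by
    push_cast
    ring
  rw [e]

/-- reflection of the lags -/
theorem far_lags (w : ℕ) {N L : ℕ} (hN : 1 ≤ N) (hL : L ≤ N) :
    ∑ e ∈ Ioo L (2 * N - L), QQ w N e ≤ 2 * ∑ d ∈ Ioc L N, QQ w N d := by
  have h1 : ∑ e ∈ Ioo L (2 * N - L), QQ w N e ≤
      ∑ e ∈ Ioc L N, QQ w N e + ∑ e ∈ Ioo N (2 * N - L), QQ w N e := by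
    have hsub : Ioo L (2 * N - L) ⊆ Ioc L N ∪ Ioo N (2 * N - L) := by
      intro e he
      rw [mem_Ioo] at he
      rw [mem_union, mem_Ioc, mem_Ioo]
      omega
    exact (sum_le_sum_of_subset hsub).trans (by
      rw [← sum_union_inter]
      exact Nat.le_add_right _ _)
  have h2 : ∑ e ∈ Ioo N (2 * N - L), QQ w N e ≤ ∑ e ∈ Ioc L N, QQ w N e := by
    have h3 : ∑ e ∈ Ioo N (2 * N - L), QQ w N e =
        ∑ e ∈ (Ioo N (2 * N - L)).image (fun e => 2 * N - e), QQ w N e := by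
      rw [sum_image]
      · refine sum_congr rfl (fun e he => ?_)
        rw [mem_Ioo] at he
        exact (QQ_symm w hN (by omega)).symm
      · intro e he e' he' h
        rw [mem_coe, mem_Ioo] at he he'
        simp only at h
        omega
    rw [h3]
    refine sum_le_sum_of_subset ?_
    intro d hd
    rw [mem_image] at hd
    obtain ⟨e, he, rfl⟩ := hd
    rw [mem_Ioo] at he
    rw [mem_Ioc]
    omega
  omega

theorem sum_YF (w : ℕ) {N L : ℕ} (hN : 1 ≤ N) (hL : L ≤ N) :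
    ∑ f ∈ PL N, YF w L f ≤ 2 * ∑ d ∈ Ioc L N, (L + 1) * QQ w N d := by
  have h1 : ∀ f : ZMod (2 * N) → ℤ × ℤ, YF w L f ≤ ∑ j ∈ range (L + 1), ∑ e ∈ Ioo L (2 * N - L),
      if D (f ((j : ℕ) : ZMod (2 * N))) (f (((j : ℕ) : ZMod (2 * N)) + ((e : ℕ) : ZMod (2 * N)))) ≤ w
        then 1 else 0 := by
    intro f
    unfold YF
    rw [card_filter]
    refine sum_le_sum (fun j _ => ?_)
    split_ifs with h
    · obtain ⟨e, he, h2⟩ := h
      refine le_trans ?_ (single_le_sum (fun _ _ => Nat.zero_le _) he)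
      rw [if_pos h2]
    · exact Nat.zero_le _
  calc ∑ f ∈ PL N, YF w L f ≤ ∑ f ∈ PL N, ∑ j ∈ range (L + 1), ∑ e ∈ Ioo L (2 * N - L),
      (if D (f ((j : ℕ) : ZMod (2 * N))) (f (((j : ℕ) : ZMod (2 * N)) + ((e : ℕ) : ZMod (2 * N)))) ≤ w
        then 1 else 0) := sum_le_sum (fun f _ => h1 f)
    _ = ∑ j ∈ range (L + 1), ∑ e ∈ Ioo L (2 * N - L), QQ w N e := by
        rw [sum_comm]
        refine sum_congr rfl (fun j _ => ?_)
        rw [sum_comm]
        refine sum_congr rfl (fun e _ => ?_)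
        rw [← card_filter, QQ_root w hN]
    _ = (L + 1) * ∑ e ∈ Ioo L (2 * N - L), QQ w N e := by
        rw [sum_const, card_range, smul_eq_mul]
    _ ≤ (L + 1) * (2 * ∑ d ∈ Ioc L N, QQ w N d) := Nat.mul_le_mul_left _ (far_lags w hN hL)
    _ = _ := by rw [← mul_sum]; ring

/-- the total -/
noncomputable def TT (w L : ℕ) {m : ℕ} (f : ZMod m → ℤ × ℤ) : ℝ :=
  Z0 w L f + 2 / L * ∑ b ∈ Icc 1 L, (Zb w L b f : ℝ) + YF w L f

theorem TT_nonneg (w L : ℕ) {m : ℕ} (f : ZMod m → ℤ × ℤ) : 0 ≤ TT w L f := by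
  unfold TT
  positivity

theorem mean_T : ∃ K : ℝ, 1 < K ∧ ∀ w L N : ℕ, 1 ≤ w → 1 ≤ L → L ≤ N → 3 ≤ N →
    ∑ f ∈ PL N, TT w L f ≤ (PL N).card * (K ^ w * (1 + Real.log ((L + 1 : ℕ) : ℝ) ^ 2)) := by
  obtain ⟨K, hK, h⟩ := lag_close
  refine ⟨3 * K, by linarith, fun w L N hw hL hLN hN => ?_⟩
  have hN1 : 1 ≤ N := by omega
  have h0 := h w (L + 1) N hw (by omega) hN
  set l := Real.log ((L + 1 : ℕ) : ℝ) ^ 2 with hl
  have hl0 : 0 ≤ l := by positivity
  set c := ((PL N).card : ℝ) with hc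
  have hc0 : 0 ≤ c := Nat.cast_nonneg _
  set S1 := ∑ d ∈ Icc 1 L, d * QQ w N d with hS1
  set S2 := ∑ d ∈ Ioc L N, (L + 1) * QQ w N d with hS2
  have e1 : (S1 : ℝ) + S2 ≤ c + c * (K ^ w * l) := by
    have h1 : (S1 : ℝ) + S2 ≤ QQ w N 1 + ∑ d ∈ Finset.Icc 2 N, (min d (L + 1 : ℕ) : ℝ) * QQ w N d := by
      have h2 : (S1 : ℝ) + S2 = ∑ d ∈ Icc 1 N, (min d (L + 1 : ℕ) : ℝ) * QQ w N d := by
        have h3 : Icc 1 N = Icc 1 L ∪ Ioc L N := by
          ext d
          simp only [mem_union, mem_Icc, mem_Ioc]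
          omega
        have h4 : Disjoint (Icc 1 L) (Ioc L N) := by
          rw [disjoint_left]
          intro d hd hd'
          rw [mem_Icc] at hd
          rw [mem_Ioc] at hd'
          omega
        rw [h3, sum_union h4, hS1, hS2]
        push_cast
        congr 1
        · refine sum_congr rfl (fun d hd => ?_)
          rw [mem_Icc] at hd
          have : (d : ℝ) ≤ (L : ℝ) + 1 := by
            exact_mod_cast (show d ≤ L + 1 by omega)
          rw [min_eq_left this]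
        · refine sum_congr rfl (fun d hd => ?_)
          rw [mem_Ioc] at hd
          have : (L : ℝ) + 1 ≤ d := by
            exact_mod_cast (show L + 1 ≤ d by omega)
          rw [min_eq_right this]
      rw [h2]
      have h3 : Icc 1 N = insert 1 (Icc 2 N) := by
        ext d
        simp only [mem_insert, mem_Icc]
        omega
      rw [h3, sum_insert (by simp)]
      have h4 : (min ((1 : ℕ) : ℝ) ((L + 1 : ℕ) : ℝ)) = 1 := by
        rw [Nat.cast_one]
        refine min_eq_left ?_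
        push_cast
        have : (0 : ℝ) ≤ L := Nat.cast_nonneg _
        linarith
      rw [h4, one_mul]
    have h2 : (QQ w N 1 : ℝ) ≤ c := by
      rw [hc]
      exact_mod_cast card_filter_le _ _
    linarith
  have e2 : ∑ f ∈ PL N, (Z0 w L f : ℝ) ≤ S1 := by exact_mod_cast sum_Z0 w L hN1
  have e3 : ∑ f ∈ PL N, (YF w L f : ℝ) ≤ 2 * S2 := by exact_mod_cast sum_YF w hN1 hLN
  have e4 : ∑ f ∈ PL N, ∑ b ∈ Icc 1 L, (Zb w L b f : ℝ) ≤ L * S1 := by
    rw [sum_comm]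
    calc ∑ b ∈ Icc 1 L, ∑ f ∈ PL N, (Zb w L b f : ℝ) ≤ ∑ b ∈ Icc 1 L, (S1 : ℝ) :=
          sum_le_sum (fun b _ => by exact_mod_cast sum_Zb w L b hN1)
      _ = L * S1 := by
          rw [sum_const, Nat.card_Icc, Nat.add_sub_cancel, nsmul_eq_mul]
  have hL0 : (0 : ℝ) < L := by exact_mod_cast hL
  have hS10 : (0 : ℝ) ≤ S1 := Nat.cast_nonneg _
  have hS20 : (0 : ℝ) ≤ S2 := Nat.cast_nonneg _
  have e5 : ∑ f ∈ PL N, TT w L f = ∑ f ∈ PL N, (Z0 w L f : ℝ) +
      2 / L * ∑ f ∈ PL N, ∑ b ∈ Icc 1 L, (Zb w L b f : ℝ) + ∑ f ∈ PL N, (YF w L f : ℝ) := by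
    unfold TT
    rw [sum_add_distrib, sum_add_distrib, ← mul_sum]
  rw [e5]
  have e6 : 2 / L * ∑ f ∈ PL N, ∑ b ∈ Icc 1 L, (Zb w L b f : ℝ) ≤ 2 * S1 := by
    calc 2 / L * ∑ f ∈ PL N, ∑ b ∈ Icc 1 L, (Zb w L b f : ℝ) ≤ 2 / L * (L * S1) :=
          mul_le_mul_of_nonneg_left e4 (by positivity)
      _ = 2 * S1 := by field_simp
  have hKw : (1 : ℝ) ≤ K ^ w := one_le_pow₀ hK.le
  have h3w : (3 : ℝ) ≤ 3 ^ w := le_self_pow₀ (by norm_num) (by omega)
  calc ∑ f ∈ PL N, (Z0 w L f : ℝ) +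
      2 / L * ∑ f ∈ PL N, ∑ b ∈ Icc 1 L, (Zb w L b f : ℝ) + ∑ f ∈ PL N, (YF w L f : ℝ)
      ≤ S1 + 2 * S1 + 2 * S2 := add_le_add (add_le_add e2 e6) e3
    _ ≤ 3 * (c + c * (K ^ w * l)) := by linarith
    _ ≤ 3 * (c * (K ^ w * (1 + l))) := by
        have : c * 1 ≤ c * K ^ w := mul_le_mul_of_nonneg_left hKw hc0
        have e : c * (K ^ w * (1 + l)) = c * K ^ w + c * (K ^ w * l) := by ring
        rw [e]
        linarith
    _ = 3 * (c * K ^ w * (1 + l)) := by ring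
    _ ≤ 3 ^ w * (c * K ^ w * (1 + l)) := mul_le_mul_of_nonneg_right h3w (by positivity)
    _ = c * ((3 * K) ^ w * (1 + l)) := by rw [mul_pow]; ring

/-- a good time outside of the box -/
theorem exists_time {N R L w : ℕ} {f : ZMod (2 * N) → ℤ × ℤ} (hf : Function.Injective f)
    (hL : 2 * (2 * R + 1) ^ 2 ≤ L) (hLN : L ≤ N) :
    ∃ b, 1 ≤ b ∧ b ≤ L ∧ ¬ EN.Q (f 0) R (f ((b : ℕ) : ZMod (2 * N))) ∧
      (Zb w L b f : ℝ) ≤ 2 / L * ∑ b ∈ Icc 1 L, (Zb w L b f : ℝ) := by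
  set O := (Icc 1 L).filter (fun b => ¬ EN.Q (f 0) R (f ((b : ℕ) : ZMod (2 * N)))) with hO
  set S := ∑ b ∈ Icc 1 L, (Zb w L b f : ℝ) with hS
  have hS0 : 0 ≤ S := sum_nonneg (fun _ _ => Nat.cast_nonneg _)
  have hpos : 1 ≤ (2 * R + 1) ^ 2 := Nat.one_le_pow _ _ (by omega)
  have hin : ((Icc 1 L).filter (fun b => EN.Q (f 0) R (f ((b : ℕ) : ZMod (2 * N))))).card ≤
      (2 * R + 1) ^ 2 := by
    calc _ ≤ (Icc ((f 0).1 - R) ((f 0).1 + R) ×ˢ Icc ((f 0).2 - R) ((f 0).2 + R)).card := by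
          refine card_le_card_of_injOn (fun b => f ((b : ℕ) : ZMod (2 * N))) ?_ ?_
          · intro b hb
            rw [mem_coe, mem_filter] at hb
            have h1 := hb.2
            unfold EN.Q at h1
            rw [mem_coe, mem_product, mem_Icc, mem_Icc]
            omega
          · intro b hb b' hb' h
            rw [mem_coe, mem_filter, mem_Icc] at hb hb'
            exact Run7.h738.PG.nat_eq (by omega) (by omega) (hf h)
      _ = (2 * R + 1) ^ 2 := by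
          rw [card_product, Int.card_Icc, Int.card_Icc]
          have e1 : ((f 0).1 + R + 1 - ((f 0).1 - R)).toNat = 2 * R + 1 := by omega
          have e2 : ((f 0).2 + R + 1 - ((f 0).2 - R)).toNat = 2 * R + 1 := by omega
          rw [e1, e2, sq]
  have hsum := card_filter_add_card_filter_not (s := Icc 1 L)
    (fun b => EN.Q (f 0) R (f ((b : ℕ) : ZMod (2 * N))))
  rw [Nat.card_Icc, Nat.add_sub_cancel] at hsum
  have hOc : L ≤ 2 * O.card := by
    rw [hO]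
    omega
  have hne : O.Nonempty := by
    rw [← card_pos]
    omega
  have hL0 : (0 : ℝ) < L := by exact_mod_cast (show 0 < L by omega)
  obtain ⟨b, hb, h1⟩ := exists_le_of_sum_le (s := O) (f := fun b => (Zb w L b f : ℝ))
    (g := fun _ => 2 / L * S) hne (by
      rw [sum_const, nsmul_eq_mul]
      calc ∑ b ∈ O, (Zb w L b f : ℝ) ≤ S :=
            sum_le_sum_of_subset_of_nonneg (filter_subset _ _) (fun _ _ _ => Nat.cast_nonneg _)
        _ = L / 2 * (2 / L * S) := by field_simp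
        _ ≤ O.card * (2 / L * S) := by
            refine mul_le_mul_of_nonneg_right ?_ (by positivity)
            have : (L : ℝ) ≤ 2 * O.card := by exact_mod_cast hOc
            linarith)
  rw [hO, mem_filter, mem_Icc] at hb
  exact ⟨b, hb.1.1, hb.1.2, hb.2, h1⟩

end Run7.h647.TY
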