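import Pool.Agent.Run7.h647.TY.Fin

/-! # All scales -/

set_option autoImplicit false

namespace Run7.h647.TY

open scoped Classical
open Finset
open Run7.h738.PG Run7.h738.ND Run7.h647.EN

theorem D_root {m : ℕ} {f : ZMod m → ℤ × ℤ} (hf : Loop m f) (j : ℕ) :
    D (f 0) (f ((j : ℕ) : ZMod m)) ≤ j := by
  induction j with
  | zero => simp [D_self]
  | succ j ih =>
    have h1 := D_tri (f 0) (f ((j : ℕ) : ZMod m)) (f ((j + 1 : ℕ) : ZMod m))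
    have h2 : D (f ((j : ℕ) : ZMod m)) (f ((j + 1 : ℕ) : ZMod m)) ≤ 1 := by
      have h3 := hf.2.2 ((j : ℕ) : ZMod m)
      push_cast
      refine D_of_abs ?_
      rw [abs_sub_comm, abs_sub_comm (f ((j : ℕ) : ZMod m)).2]
      push_cast
      exact h3.le
    omega

theorem R_lt {n R : ℕ} {f : ZMod (2 * n) → ℤ × ℤ} (hn : 1 ≤ n) (hf : Loop (2 * n) f)
    {j : ZMod (2 * n)} (hj : ¬ Q (f 0) R (f j)) : R < 2 * n := by
  have : NeZero (2 * n) := ⟨by omega⟩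
  by_contra hcon
  apply hj
  have h1 := D_root hf j.val
  rw [ZMod.natCast_zmod_val] at h1
  have h2 : j.val < 2 * n := ZMod.val_lt j
  unfold D at h1
  unfold Q
  omega

theorem Q_mono {v p : ℤ × ℤ} {R R' : ℕ} (h : R ≤ R') (hQ : Q v R p) : Q v R' p := by
  unfold Q at *
  omega

/-- from a power of two to all the scales -/
theorem Good_up {m : ℕ} {f : ZMod m → ℤ × ℤ} {r P R : ℕ} (h1 : P ≤ R) (h2 : R ≤ 2 * P)
    (h : Good f r P 4) : Good f r R 8 := by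
  rintro ⟨j, hj⟩ η
  obtain ⟨U, hU1, hU2, hU3⟩ := h ⟨j, fun hQ => hj (Q_mono h1 hQ)⟩ η
  refine ⟨U, by nlinarith, hU2, fun u hu p hp => ?_⟩
  have h3 := hU3 u hu p hp
  have h4 : (P : ℤ) ≤ R := by exact_mod_cast h1
  exact ⟨h3.1.trans h4, h3.2.trans h4⟩

theorem geo {y : ℝ} (hy0 : 0 ≤ y) (hy : y < 1) (k0 M : ℕ) :
    ∑ k ∈ Icc k0 M, y ^ k ≤ y ^ k0 / (1 - y) := by
  have h1 : ∀ m : ℕ, ∑ i ∈ range m, y ^ i ≤ 1 / (1 - y) := by
    intro m
    rw [le_div_iff₀ (by linarith), geom_sum_mul_neg]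
    have : 0 ≤ y ^ m := by positivity
    linarith
  have h2 : Icc k0 M = Ico k0 (M + 1) := by
    ext k
    simp only [mem_Icc, mem_Ico]
    omega
  rw [h2, sum_Ico_eq_sum_range]
  calc ∑ i ∈ range (M + 1 - k0), y ^ (k0 + i) = y ^ k0 * ∑ i ∈ range (M + 1 - k0), y ^ i := by
        rw [mul_sum]
        refine sum_congr rfl (fun i _ => pow_add _ _ _)
    _ ≤ y ^ k0 * (1 / (1 - y)) := mul_le_mul_of_nonneg_left (h1 _) (by positivity)
    _ = _ := by ring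

theorem cube_bound {ρ : ℝ} (hρ : 1 < ρ) : ∃ B : ℝ, 0 < B ∧ ∀ k : ℕ, ((k : ℝ) + 1) ^ 3 ≤ B * ρ ^ (k + 1) := by
  have h1 := tendsto_pow_const_div_const_pow_of_one_lt 3 hρ
  obtain ⟨B, hB⟩ := h1.bddAbove_range
  refine ⟨max B 1, lt_of_lt_of_le one_pos (le_max_right _ _), fun k => ?_⟩
  have h2 : (((k + 1 : ℕ)) : ℝ) ^ 3 / ρ ^ (k + 1) ≤ B := hB ⟨k + 1, rfl⟩
  rw [div_le_iff₀ (by positivity)] at h2
  push_cast at h2
  refine h2.trans (mul_le_mul_of_nonneg_right (le_max_left _ _) (by positivity))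

/-- **all scales** -/
theorem all_scales {K : ℝ} (hK : 2 ≤ K) (h : ∀ n r R : ℕ, 2 ≤ n → 1 ≤ r → 2 ≤ R →
    (({f | Loop (2 * n) f ∧ ¬ Good f r R 4} : Set (ZMod (2 * n) → ℤ × ℤ)).ncard : ℝ) ≤
      K ^ r * Real.log R ^ 2 / R *
        (({f | Loop (2 * n) f} : Set (ZMod (2 * n) → ℤ × ℤ)).ncard : ℝ)) {ε : ℝ} (hε : 0 < ε)
    (hε1 : ε < 1) : ∃ C : ℝ, 0 < C ∧ ∀ n R₀ : ℕ, 2 ≤ n → 2 ≤ R₀ →
    (({f | Loop (2 * n) f ∧ ¬ ∀ R r : ℕ, R₀ ≤ R → 1 ≤ r → K ^ r ≤ (R : ℝ) ^ (ε / 2) →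
      Good f r R 8} : Set (ZMod (2 * n) → ℤ × ℤ)).ncard : ℝ) ≤
      C * (R₀ : ℝ) ^ (ε - 1) *
        (({f | Loop (2 * n) f} : Set (ZMod (2 * n) → ℤ × ℤ)).ncard : ℝ) := by
  set ρ : ℝ := (2 : ℝ) ^ (ε / 2) with hρ
  have hρ1 : 1 < ρ := Real.one_lt_rpow (by norm_num) (by linarith)
  have hρ2 : ρ ≤ 2 := by
    calc ρ ≤ (2 : ℝ) ^ (1 : ℝ) := Real.rpow_le_rpow_of_exponent_le (by norm_num) (by linarith)
      _ = 2 := Real.rpow_one _
  obtain ⟨B, hB, hcube⟩ := cube_bound hρ1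
  set y : ℝ := ρ ^ 2 / 2 with hy
  have hρsq : ρ ^ 2 = (2 : ℝ) ^ ε := by
    rw [hρ, ← Real.rpow_natCast, ← Real.rpow_mul (by norm_num)]
    congr 1
    push_cast
    ring
  have hyε : y = (2 : ℝ) ^ (ε - 1) := by
    rw [hy, hρsq, Real.rpow_sub (by norm_num), Real.rpow_one]
  have hy0 : 0 < y := by positivity
  have hy1 : y < 1 := by
    rw [hyε]
    exact Real.rpow_lt_one_of_one_lt_of_neg (by norm_num) (by linarith)
  have h1y : 0 < 1 - y := by linarith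
  refine ⟨B * ρ ^ 2 * 2 / (1 - y), by positivity, fun n R₀ hn hR₀ => ?_⟩
  set ℓ := (({f | Loop (2 * n) f} : Set (ZMod (2 * n) → ℤ × ℤ)).ncard : ℝ) with hℓ
  have hℓ0 : 0 ≤ ℓ := Nat.cast_nonneg _
  have hfin := Loop_finite (2 * n) (by omega)
  have hfinB : ∀ k r : ℕ, ({f | Loop (2 * n) f ∧ ¬ Good f r (2 ^ k) 4} :
      Set (ZMod (2 * n) → ℤ × ℤ)).Finite := fun k r => hfin.subset (fun f hf => hf.1)
  set k0 := Nat.log 2 R₀ with hk0
  have hk01 : 1 ≤ k0 := Nat.log_pos (by norm_num) hR₀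
  set I : ℕ → Finset ℕ := fun k => (Icc 1 (k + 1)).filter (fun r => K ^ r ≤ ρ ^ (k + 1)) with hI
  have hsub : ({f | Loop (2 * n) f ∧ ¬ ∀ R r : ℕ, R₀ ≤ R → 1 ≤ r → K ^ r ≤ (R : ℝ) ^ (ε / 2) →
      Good f r R 8} : Set (ZMod (2 * n) → ℤ × ℤ)) ⊆
      ((Icc k0 (2 * n)).biUnion (fun k => (I k).biUnion (fun r => (hfinB k r).toFinset)) :
        Finset (ZMod (2 * n) → ℤ × ℤ)) := by
    rintro f ⟨hf, hbad⟩
    push Not at hbad
    obtain ⟨R, r, h1, h2, h3, h4⟩ := hbad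
    have h5 : ∃ j, ¬ Q (f 0) R (f j) := by
      by_contra hcon
      exact h4 (fun hj => absurd hj hcon)
    obtain ⟨j, hj⟩ := h5
    have hRn := R_lt (by omega) hf hj
    set k := Nat.log 2 R with hk
    have hk1 : 2 ^ k ≤ R := Nat.pow_log_le_self 2 (by omega)
    have hk2 : R < 2 ^ (k + 1) := Nat.lt_pow_succ_log_self (by norm_num) R
    have hk3 : k0 ≤ k := Nat.log_mono_right h1
    have hk4 : k ≤ 2 * n := by
      have := Nat.lt_two_pow_self (n := k)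
      omega
    have hKρ : K ^ r ≤ ρ ^ (k + 1) := by
      refine h3.trans ?_
      calc (R : ℝ) ^ (ε / 2) ≤ ((2 : ℝ) ^ (k + 1)) ^ (ε / 2) := by
            refine Real.rpow_le_rpow (Nat.cast_nonneg _) ?_ (by linarith)
            exact_mod_cast hk2.le
        _ = ρ ^ (k + 1) := by
            rw [hρ, ← Real.rpow_natCast, ← Real.rpow_natCast, ← Real.rpow_mul (by norm_num),
              ← Real.rpow_mul (by norm_num), mul_comm]
    have hrk : r ≤ k + 1 := by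
      have h6 : (2 : ℝ) ^ r ≤ 2 ^ (k + 1) := by
        calc (2 : ℝ) ^ r ≤ K ^ r := pow_le_pow_left₀ (by norm_num) hK r
          _ ≤ ρ ^ (k + 1) := hKρ
          _ ≤ 2 ^ (k + 1) := pow_le_pow_left₀ (by linarith) hρ2 _
      exact (pow_le_pow_iff_right₀ (by norm_num : (1 : ℝ) < 2)).1 h6
    rw [mem_coe, mem_biUnion]
    refine ⟨k, mem_Icc.2 ⟨hk3, hk4⟩, ?_⟩
    rw [mem_biUnion]
    refine ⟨r, ?_, ?_⟩
    · rw [hI]
      simp only [mem_filter, mem_Icc]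
      exact ⟨⟨h2, hrk⟩, hKρ⟩
    · rw [Set.Finite.mem_toFinset]
      refine ⟨hf, fun hG => h4 (Good_up hk1 ?_ hG)⟩
      rw [pow_succ] at hk2
      omega
  have h1 := Set.ncard_le_ncard hsub (Finset.finite_toSet _)
  rw [Set.ncard_coe_finset] at h1
  have h2 := (h1.trans card_biUnion_le).trans (sum_le_sum (fun k _ => card_biUnion_le))
  have h3 : (({f | Loop (2 * n) f ∧ ¬ ∀ R r : ℕ, R₀ ≤ R → 1 ≤ r → K ^ r ≤ (R : ℝ) ^ (ε / 2) →
      Good f r R 8} : Set (ZMod (2 * n) → ℤ × ℤ)).ncard : ℝ) ≤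
      ∑ k ∈ Icc k0 (2 * n), ∑ r ∈ I k, (((hfinB k r).toFinset).card : ℝ) := by exact_mod_cast h2
  refine h3.trans ?_
  have h4 : ∀ k ∈ Icc k0 (2 * n), ∑ r ∈ I k, (((hfinB k r).toFinset).card : ℝ) ≤
      B * ρ ^ 2 * ℓ * y ^ k := by
    intro k hk
    rw [mem_Icc] at hk
    have hk1 : 1 ≤ k := by omega
    have h2k : 2 ≤ 2 ^ k := by
      calc 2 = 2 ^ 1 := by norm_num
        _ ≤ 2 ^ k := Nat.pow_le_pow_right (by norm_num) hk1
    have hlog : Real.log ((2 ^ k : ℕ) : ℝ) ^ 2 ≤ ((k : ℝ) + 1) ^ 2 := by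
      refine pow_le_pow_left₀ (Real.log_natCast_nonneg _) ?_ 2
      push_cast
      rw [Real.log_pow]
      have h5 := Real.log_two_lt_d9
      have h6 : (0 : ℝ) ≤ k := Nat.cast_nonneg k
      nlinarith
    calc ∑ r ∈ I k, (((hfinB k r).toFinset).card : ℝ)
        ≤ ∑ r ∈ I k, ρ ^ (k + 1) * ((k : ℝ) + 1) ^ 2 / 2 ^ k * ℓ := by
          refine sum_le_sum (fun r hr => ?_)
          rw [hI] at hr
          simp only [mem_filter, mem_Icc] at hr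
          rw [← Set.ncard_eq_toFinset_card _ (hfinB k r)]
          refine (h n r (2 ^ k) hn hr.1.1 h2k).trans ?_
          refine mul_le_mul_of_nonneg_right ?_ hℓ0
          rw [show (((2 ^ k : ℕ)) : ℝ) = 2 ^ k by push_cast; rfl] at hlog ⊢
          refine div_le_div_of_nonneg_right ?_ (by positivity)
          exact mul_le_mul hr.2 hlog (by positivity) (by positivity)
      _ = ((I k).card : ℝ) * (ρ ^ (k + 1) * ((k : ℝ) + 1) ^ 2 / 2 ^ k * ℓ) := by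
          rw [sum_const, nsmul_eq_mul]
      _ ≤ ((k : ℝ) + 1) * (ρ ^ (k + 1) * ((k : ℝ) + 1) ^ 2 / 2 ^ k * ℓ) := by
          refine mul_le_mul_of_nonneg_right ?_ (by positivity)
          have h5 : (I k).card ≤ k + 1 := by
            calc (I k).card ≤ (Icc 1 (k + 1)).card := card_filter_le _ _
              _ = k + 1 := by rw [Nat.card_Icc]; omega
          exact_mod_cast h5
      _ = ((k : ℝ) + 1) ^ 3 * (ρ ^ (k + 1) / 2 ^ k * ℓ) := by ring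
      _ ≤ (B * ρ ^ (k + 1)) * (ρ ^ (k + 1) / 2 ^ k * ℓ) :=
          mul_le_mul_of_nonneg_right (hcube k) (by positivity)
      _ = B * ρ ^ 2 * ℓ * y ^ k := by
          rw [hy, div_pow]
          ring
  refine (sum_le_sum h4).trans ?_
  rw [← mul_sum]
  have h5 := geo hy0.le hy1 k0 (2 * n)
  have h6 : y ^ k0 ≤ 2 * (R₀ : ℝ) ^ (ε - 1) := by
    have e1 : y ^ k0 = ((2 : ℝ) ^ k0) ^ (ε - 1) := by
      rw [hyε, ← Real.rpow_natCast, ← Real.rpow_natCast, ← Real.rpow_mul (by norm_num),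
        ← Real.rpow_mul (by norm_num), mul_comm]
    have e2 : (R₀ : ℝ) / 2 ≤ 2 ^ k0 := by
      have h7 : R₀ < 2 ^ (k0 + 1) := Nat.lt_pow_succ_log_self (by norm_num) R₀
      have h8 : (R₀ : ℝ) < 2 ^ (k0 + 1) := by exact_mod_cast h7
      rw [pow_succ] at h8
      linarith
    have hR0 : (0 : ℝ) < R₀ := by exact_mod_cast (show 0 < R₀ by omega)
    rw [e1]
    calc ((2 : ℝ) ^ k0) ^ (ε - 1) ≤ ((R₀ : ℝ) / 2) ^ (ε - 1) :=
          Real.rpow_le_rpow_of_nonpos (by positivity) e2 (by linarith)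
      _ = (R₀ : ℝ) ^ (ε - 1) * (2 : ℝ) ^ (1 - ε) := by
          rw [Real.div_rpow hR0.le (by norm_num), div_eq_mul_inv, ← Real.rpow_neg (by norm_num)]
          congr 2
          ring
      _ ≤ (R₀ : ℝ) ^ (ε - 1) * 2 := by
          refine mul_le_mul_of_nonneg_left ?_ (by positivity)
          calc (2 : ℝ) ^ (1 - ε) ≤ (2 : ℝ) ^ (1 : ℝ) :=
                Real.rpow_le_rpow_of_exponent_le (by norm_num) (by linarith)
            _ = 2 := Real.rpow_one _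
      _ = _ := by ring
  calc B * ρ ^ 2 * ℓ * ∑ k ∈ Icc k0 (2 * n), y ^ k ≤ B * ρ ^ 2 * ℓ * (y ^ k0 / (1 - y)) :=
        mul_le_mul_of_nonneg_left h5 (by positivity)
    _ ≤ B * ρ ^ 2 * ℓ * (2 * (R₀ : ℝ) ^ (ε - 1) / (1 - y)) := by
        gcongr
    _ = _ := by ring

end Run7.h647.TY
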