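import Pool.Agent.Run7.h647.EN.Cnt
import Pool.Agent.Run7.h647.TY.Lag

/-! # Rings about the root of a polygon -/

set_option autoImplicit false

namespace Run7.h647.TY

open scoped Classical
open Finset
open Run7.h738.PG Run7.h738.ND Run7.h647.EN

/-- the rings which have a pair of close sites -/
def PR {m : ℕ} (f : ZMod m → ℤ × ℤ) (d a k : ℕ) : Prop :=
  ∃ j j' : ℕ, j ≤ a ∧ a < j' ∧ j' < m ∧
    An (f 0) (2 * d * k + d - 1) d (f ((j : ℕ) : ZMod m)) ∧
      |(f ((j : ℕ) : ZMod m)).1 - (f ((j' : ℕ) : ZMod m)).1| +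
        |(f ((j : ℕ) : ZMod m)).2 - (f ((j' : ℕ) : ZMod m)).2| ≤ 4 * d

/-- the deterministic part -/
theorem holes_gen {m : ℕ} (hm : 3 ≤ m) {f : ZMod m → ℤ × ℤ} (hf : Loop m f) {R d r : ℕ}
    (hR : 1 ≤ R) (hd : 1 ≤ d) (hr : r ≤ 2 * d) {a B : ℕ} (ham : a < m)
    (hst : ¬ Q (f 0) R (f ((a : ℕ) : ZMod m)))
    (hB : ((range ((R + 1) / (2 * d))).filter (PR f d a)).card ≤ B) (η : ZMod 2) :
    ∃ M, (R + 1) / (2 * d) ≤ M + B ∧
      Holes f (f 0) R r M (fun p => ∀ s', I (Fs f s') m p ≠ η) := by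
  have hNZ : NeZero m := ⟨by omega⟩
  set F := Fs f 0 with hFdef
  have hFv : ∀ j : ℕ, F j = f ((j : ℕ) : ZMod m) := by
    intro j
    rw [hFdef]
    unfold Fs
    rw [zero_add]
  have hF : ∀ j, Nb (F j) (F (j + 1)) := by
    intro j
    have := hf.2.2 (j : ZMod m)
    unfold Nb
    rw [hFv, hFv]
    push_cast
    exact this
  have hFm : F m = F 0 := by
    rw [hFv, hFv, ZMod.natCast_self, Nat.cast_zero]
  have hF0 : F 0 = f 0 := by
    rw [hFv, Nat.cast_zero]
  have hFa : F a = f ((a : ℕ) : ZMod m) := hFv a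
  have ha1 : a + 1 < m := by
    by_contra hc
    have h1 : a + 1 = m := by omega
    have h2 := hF a
    rw [h1, hFm, hF0, hFa] at h2
    have h3 := Nb_cases h2
    apply hst
    unfold Q
    omega
  set N := (R + 1) / (2 * d) with hN
  have hk : ∀ k, k < N → 2 * d * k + 2 * d ≤ R + 1 := by
    intro k hk
    have h1 : 2 * d * (k + 1) ≤ 2 * d * N := Nat.mul_le_mul_left _ hk
    have h2 : 2 * d * N ≤ R + 1 := Nat.mul_div_le _ _
    rw [mul_add, mul_one] at h1
    omega
  -- the two kinds of annuli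
  set H : ℕ → Prop := fun k => ∃ c, RC (f 0) (2 * d * k + d - 1) c ∧
    (∀ j, j < m → ¬ Bk d c (F j)) ∧ I F m c ≠ η with hH
  have hPH : ∀ k, k < N → PR f d a k ∨ H k := by
    intro k hkN
    have h1 : (∃ j j', j ≤ a ∧ a < j' ∧ j' < m ∧
        An (f 0) (2 * d * k + d - 1) d (F j) ∧
          |(F j).1 - (F j').1| + |(F j).2 - (F j').2| ≤ 4 * d) ∨ H k := by
      refine ring hF hFm ha1 hd (f 0) (2 * d * k + d - 1) ?_ ?_ η
      · rw [hF0]
        unfold Q
        omega
      · rw [hFa]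
        intro h
        apply hst
        have := hk k hkN
        unfold Q at h ⊢
        generalize 2 * d * k = A at *
        omega
    rcases h1 with ⟨j, j', h1, h2, h3, h4, h5⟩ | h1
    · left
      rw [hFv] at h4 h5
      rw [hFv] at h5
      exact ⟨j, j', h1, h2, h3, h4, h5⟩
    · exact Or.inr h1
  set GP := (range N).filter (PR f d a) with hGP
  set GH := (range N).filter H with hGH
  have hcard : N ≤ GH.card + GP.card := by
    calc N = (range N).card := (card_range N).symm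
      _ ≤ (GH ∪ GP).card := by
          refine card_le_card (fun k hk => ?_)
          rw [mem_union, hGH, hGP, mem_filter, mem_filter]
          rcases hPH k (mem_range.1 hk) with h | h
          · exact Or.inr ⟨hk, h⟩
          · exact Or.inl ⟨hk, h⟩
      _ ≤ _ := card_union_le _ _
  refine ⟨GH.card, by omega, ?_⟩
  have hch : ∀ k : ℕ, ∃ c : ℤ × ℤ, H k → RC (f 0) (2 * d * k + d - 1) c ∧
      (∀ j, j < m → ¬ Bk d c (F j)) ∧ I F m c ≠ η := by
    intro k
    by_cases h : H k
    · obtain ⟨c, h1⟩ := h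
      exact ⟨c, fun _ => h1⟩
    · exact ⟨0, fun h' => absurd h' h⟩
  choose c hc using hch
  set en := GH.orderEmbOfFin rfl with hen
  have hin : ∀ k : Fin GH.card, ∀ p ∈ sq ((c (en k)).1 + 1 - d, (c (en k)).2 + 1 - d) r,
      Bk d (c (en k)) p := by
    rintro k p ⟨h1, h2, h3, h4⟩
    simp only at h1 h2 h3 h4
    unfold Bk
    omega
  have hmem : ∀ k, en k < N ∧ H (en k) := by
    intro k
    have : en k ∈ GH := orderEmbOfFin_mem GH rfl k
    exact ⟨mem_range.1 (mem_filter.1 this).1, (mem_filter.1 this).2⟩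
  refine ⟨fun k => ((c (en k)).1 + 1 - d, (c (en k)).2 + 1 - d), ?_, ?_⟩
  · intro k p hp
    have hb := hin k p hp
    obtain ⟨h1, h2, h3⟩ := hc (en k) (hmem k).2
    have hA := RC_An h1 hb
    have hkR := hk (en k) (hmem k).1
    refine ⟨?_, ?_, ?_⟩
    · unfold An at hA
      rw [abs_le, abs_le]
      generalize 2 * d * (en k) = A at *
      omega
    · intro i hi
      apply h2 i.val (ZMod.val_lt _)
      have : F i.val = f i := by
        rw [hFv, ZMod.natCast_zmod_val]
      rw [this, hi]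
      exact hb
    · intro s'
      have e1 : I (Fs f s') m p = I F m p := by
        have e4 : (I (Fs f s') m p = 1 ↔ I (Fs f 0) m p = 1) :=
          (I_Inside f s' p).trans (I_Inside f 0 p).symm
        rw [hFdef]
        generalize I (Fs f s') m p = x at *
        generalize I (Fs f 0) m p = y at *
        revert x y
        decide
      have hcB : Bk d (c (en k)) (c (en k)) := by
        unfold Bk
        omega
      rw [e1, blk_const hFm (by omega) hF h2 hb hcB]
      exact h3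
  · intro k l hkl
    rw [Set.disjoint_left]
    intro p hp hp'
    have hb := hin k p hp
    have hb' := hin l p hp'
    have hA := RC_An (hc (en k) (hmem k).2).1 hb
    have hA' := RC_An (hc (en l) (hmem l).2).1 hb'
    exact hkl (en.injective (An_inj hA hA'))

/-- index pairs with a sum at most `L` -/
def IP (L : ℕ) : Finset (ℕ × ℕ) := (Icc 1 L ×ˢ range (L + 1)).filter (fun q => q.1 + q.2 ≤ L)

/-- close pairs across `0` with lag at most `L` -/
noncomputable def Z0 (w L : ℕ) {m : ℕ} (f : ZMod m → ℤ × ℤ) : ℕ :=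
  ((IP L).filter (fun q => D (f (-((q.1 : ℕ) : ZMod m))) (f ((q.2 : ℕ) : ZMod m)) ≤ w)).card

/-- close pairs across `b` with lag at most `L` -/
noncomputable def Zb (w L b : ℕ) {m : ℕ} (f : ZMod m → ℤ × ℤ) : ℕ :=
  ((IP L).filter (fun q => D (f (((b : ℕ) : ZMod m) - ((q.2 : ℕ) : ZMod m)))
    (f (((b : ℕ) : ZMod m) + ((q.1 : ℕ) : ZMod m))) ≤ w)).card

/-- times in `[0, L]` with a close site with lag more than `L` -/
noncomputable def YF (w L : ℕ) {m : ℕ} (f : ZMod m → ℤ × ℤ) : ℕ :=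
  ((range (L + 1)).filter (fun j => ∃ e ∈ Ioo L (m - L),
    D (f ((j : ℕ) : ZMod m)) (f (((j : ℕ) : ZMod m) + ((e : ℕ) : ZMod m))) ≤ w)).card

theorem D_of_abs {p q : ℤ × ℤ} {w : ℕ} (h : |p.1 - q.1| + |p.2 - q.2| ≤ w) : D p q ≤ w := by
  unfold D
  rcases abs_cases (p.1 - q.1) with e1 | e1 <;> rcases abs_cases (p.2 - q.2) with e2 | e2 <;> omega

theorem PR_card {m : ℕ} {f : ZMod m → ℤ × ℤ} {d a L T : ℕ} (haL : a ≤ L) (hL : 2 * L < m) :
    ((range T).filter (PR f d a)).card ≤ Z0 (4 * d) L f + Zb (4 * d) L a f + YF (4 * d) L f := by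
  set GP := (range T).filter (PR f d a) with hGP
  have hch : ∀ k : ℕ, ∃ q : ℕ × ℕ, PR f d a k → q.1 ≤ a ∧ a < q.2 ∧ q.2 < m ∧
      An (f 0) (2 * d * k + d - 1) d (f ((q.1 : ℕ) : ZMod m)) ∧
      D (f ((q.1 : ℕ) : ZMod m)) (f ((q.2 : ℕ) : ZMod m)) ≤ 4 * d := by
    intro k
    by_cases h : PR f d a k
    · obtain ⟨j, j', h1, h2, h3, h4, h5⟩ := h
      exact ⟨(j, j'), fun _ => ⟨h1, h2, h3, h4, D_of_abs (by push_cast; exact h5)⟩⟩
    · exact ⟨(0, 0), fun h' => absurd h' h⟩
  choose q hq using hch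
  have hinj : ∀ k ∈ GP, ∀ k' ∈ GP, (q k).1 = (q k').1 → k = k' := by
    intro k hk k' hk' e1
    obtain ⟨h1, h2, h3, h4, h5⟩ := hq k (mem_filter.1 hk).2
    obtain ⟨h1', h2', h3', h4', h5'⟩ := hq k' (mem_filter.1 hk').2
    rw [e1] at h4
    exact An_inj h4 h4'
  have hsplit : GP ⊆ (GP.filter (fun k => m - ((q k).2 - (q k).1) ≤ L)) ∪
      (GP.filter (fun k => (q k).2 - (q k).1 ≤ L)) ∪
      (GP.filter (fun k => L < (q k).2 - (q k).1 ∧ L < m - ((q k).2 - (q k).1))) := by
    intro k hk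
    simp only [mem_union, mem_filter]
    by_cases h1 : m - ((q k).2 - (q k).1) ≤ L
    · exact Or.inl (Or.inl ⟨hk, h1⟩)
    · by_cases h2 : (q k).2 - (q k).1 ≤ L
      · exact Or.inl (Or.inr ⟨hk, h2⟩)
      · exact Or.inr ⟨hk, by omega, by omega⟩
  refine (card_le_card hsplit).trans ((card_union_le _ _).trans
    (add_le_add ((card_union_le _ _).trans (add_le_add ?_ ?_)) ?_))
  · unfold Z0
    refine card_le_card_of_injOn (fun k => (m - (q k).2, (q k).1)) ?_ ?_
    · intro k hk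
      rw [mem_coe, mem_filter] at hk
      obtain ⟨h1, h2, h3, h4, h5⟩ := hq k (mem_filter.1 hk.1).2
      have h6 := hk.2
      rw [mem_coe, mem_filter, IP, mem_filter, mem_product, mem_Icc, mem_range]
      simp only
      refine ⟨⟨⟨⟨by omega, by omega⟩, by omega⟩, by omega⟩, ?_⟩
      have e : -((m - (q k).2 : ℕ) : ZMod m) = (((q k).2 : ℕ) : ZMod m) := by
        rw [Nat.cast_sub h3.le, ZMod.natCast_self]
        ring
      rw [e, D_comm]
      exact h5
    · intro k hk k' hk' hkk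
      rw [mem_coe, mem_filter] at hk hk'
      simp only [Prod.mk.injEq] at hkk
      exact hinj k hk.1 k' hk'.1 hkk.2
  · unfold Zb
    refine card_le_card_of_injOn (fun k => ((q k).2 - a, a - (q k).1)) ?_ ?_
    · intro k hk
      rw [mem_coe, mem_filter] at hk
      obtain ⟨h1, h2, h3, h4, h5⟩ := hq k (mem_filter.1 hk.1).2
      have h6 := hk.2
      rw [mem_coe, mem_filter, IP, mem_filter, mem_product, mem_Icc, mem_range]
      simp only
      refine ⟨⟨⟨⟨by omega, by omega⟩, by omega⟩, by omega⟩, ?_⟩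
      have e1 : ((a : ℕ) : ZMod m) - ((a - (q k).1 : ℕ) : ZMod m) = (((q k).1 : ℕ) : ZMod m) := by
        rw [Nat.cast_sub h1]
        ring
      have e2 : ((a : ℕ) : ZMod m) + (((q k).2 - a : ℕ) : ZMod m) = (((q k).2 : ℕ) : ZMod m) := by
        rw [Nat.cast_sub h2.le]
        ring
      rw [e1, e2]
      exact h5
    · intro k hk k' hk' hkk
      rw [mem_coe, mem_filter] at hk hk'
      simp only [Prod.mk.injEq] at hkk
      obtain ⟨h1, -⟩ := hq k (mem_filter.1 hk.1).2
      obtain ⟨h1', -⟩ := hq k' (mem_filter.1 hk'.1).2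
      exact hinj k hk.1 k' hk'.1 (by omega)
  · unfold YF
    refine card_le_card_of_injOn (fun k => (q k).1) ?_ ?_
    · intro k hk
      rw [mem_coe, mem_filter] at hk
      obtain ⟨h1, h2, h3, h4, h5⟩ := hq k (mem_filter.1 hk.1).2
      have h6 := hk.2
      rw [mem_coe, mem_filter, mem_range]
      simp only
      refine ⟨by omega, (q k).2 - (q k).1, mem_Ioo.2 (by omega), ?_⟩
      have e2 : (((q k).1 : ℕ) : ZMod m) + (((q k).2 - (q k).1 : ℕ) : ZMod m) =
          (((q k).2 : ℕ) : ZMod m) := by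
        rw [Nat.cast_sub (by omega)]
        ring
      rw [e2]
      exact h5
    · intro k hk k' hk' hkk
      rw [mem_coe, mem_filter] at hk hk'
      exact hinj k hk.1 k' hk'.1 hkk

end Run7.h647.TY
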