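import Pool.Agent.TH546.PB.Trans
import Pool.Agent.Run7.h738.ND.Inst

/-! # Close pairs across the middle of an arc of a polygon -/

set_option autoImplicit false

namespace Run7.h647.TY

open scoped Classical
open Pool.Agent.W840.CT hiding tail_all
open Pool.Agent.TH546.SAW hiding avg avg2 entropy variational transfer window_mean max_mean
  loop_mean far_mean PL_lower poly_avg poly_entropy
open Pool.Agent.TH546.SG
open Run7.h738.ND

/-- close pairs across the middle of an arc -/
theorem poly_window {p : ℕ} (hp : 1 ≤ p) (hcu : CU p) (hlo : PLo p) : ∃ K : ℝ, 0 ≤ K ∧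
    ∀ w a b C : ℕ, Cnt w a b C → ∀ s N : ℕ, 2 ≤ s → 2 * s ≤ 2 * N - 1 →
    ∑ f ∈ PL N, (TW w (2 * s) s (pp (2 * s) 0 f) : ℝ) ≤
      (PL N).card * (K * MM a b C * Real.log s ^ p) := by
  obtain ⟨K, hK, h⟩ := poly_avg hp hcu hlo
  obtain ⟨K', hK', hu⟩ := hcu
  have hcP := one_le_cP p
  refine ⟨5 * (3 / 2) ^ p + 3 * K' + 3 * (K * cP p), by positivity,
    fun w a b C hC s N hs hN => ?_⟩
  have hmom := exp_momentW hC s
  obtain ⟨ha, hC1, -⟩ := hC
  have hL1 := log_ge hs
  have hone1 := one_le_LP p hs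
  have hLP0 := LP_nonneg p s
  set E : ℝ := (3 / 2) ^ p with hE
  have hE0 : 0 < E := by positivity
  set l := Real.log C with hl
  have hl0 : 0 ≤ l := Real.log_natCast_nonneg C
  have hC0 : (0 : ℝ) < C := by exact_mod_cast hC1
  have hC1' : (1 : ℝ) ≤ C := by exact_mod_cast hC1
  have ha' : (1 : ℝ) ≤ a := by exact_mod_cast ha
  have hb' : (0 : ℝ) ≤ b := Nat.cast_nonneg b
  have hs' : (2 : ℝ) ≤ s := by exact_mod_cast hs
  have hmu := mu_pos
  have hcn : (0 : ℝ) ≤ (PL N).card := Nat.cast_nonneg _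
  have hc2 : (0 : ℝ) < cn s := lt_of_lt_of_le one_pos (cn_pos _)
  have hL4 : Real.log ((2 * s : ℕ) : ℝ) ^ p ≤ 2 * cP p * Real.log s ^ p := by
    have := log_mul_pow_le' hp (m := s) (j := 2) hs (by norm_num)
    push_cast at this ⊢
    linarith
  have hlogc : Real.log (cn s) ≤ s * Real.log H981.mu + K' * Real.log s ^ p := by
    have h4 := Real.log_le_log hc2 (hu s hs s le_rfl)
    rw [Real.log_mul (by positivity) (Real.exp_pos _).ne', Real.log_exp, Real.log_pow] at h4
    exact h4
  have h3 := h (2 * s) N (by omega) hN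
    (fun v => (2 : ℝ) ^ ((TW w (2 * s) s v - b) / a))
    (fun v => by positivity) (fun f hf => by positivity)
  have hZ : Real.log (∑ v ∈ W (2 * s), (2 : ℝ) ^ ((TW w (2 * s) s v - b) / a)) ≤
      1.2 + l + 2 * K' * Real.log s ^ p + ((2 * s : ℕ) : ℝ) * Real.log H981.mu := by
    have h5 : 0 < ∑ v ∈ W (2 * s), (2 : ℝ) ^ ((TW w (2 * s) s v - b) / a) :=
      Finset.sum_pos (fun v _ => by positivity) (W_nonempty _)
    have h6 := Real.log_le_log h5 hmom
    rw [Real.log_mul (by positivity) (by positivity), Real.log_pow] at h6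
    have h7 : Real.log (2 * C + 1) ≤ 1.2 + l := by
      have h8 : (1.2 : ℝ) + l = Real.log (Real.exp 1.2 * C) := by
        rw [Real.log_mul (Real.exp_pos _).ne' hC0.ne', Real.log_exp]
      rw [h8]
      refine Real.log_le_log (by positivity) ?_
      have h9 : (3 : ℝ) ≤ Real.exp 1.2 := by
        have h10 := Real.quadratic_le_exp_of_nonneg (show (0 : ℝ) ≤ 0.2 by norm_num)
        have h11 : Real.exp 1.2 = Real.exp 1 * Real.exp 0.2 := by
          rw [← Real.exp_add]; norm_num
        have h12 := Real.exp_one_gt_d9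
        rw [h11]
        nlinarith
      nlinarith
    have e4 : ((2 * s : ℕ) : ℝ) * Real.log H981.mu =
        2 * (s * Real.log H981.mu) := by
      push_cast; ring
    have e2 : (((2 : ℕ)) : ℝ) = 2 := by norm_num
    rw [e2] at h6
    rw [e4]
    linarith
  set X : (ZMod (2 * N) → ℤ × ℤ) → ℕ := fun f =>
    (TW w (2 * s) s (pp (2 * s) 0 f) - b) / a with hX
  have h8 : ∀ f : ZMod (2 * N) → ℤ × ℤ, (TW w (2 * s) s (pp (2 * s) 0 f) : ℝ) ≤
      a / Real.log 2 * Real.log ((2 : ℝ) ^ X f) + (a + b) := by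
    intro f
    rw [Real.log_pow]
    have hl2 := log_two_bd.1
    have e : a / Real.log 2 * (X f * Real.log 2) = a * (X f : ℝ) := by
      field_simp
    rw [e]
    have h9 : TW w (2 * s) s (pp (2 * s) 0 f) ≤ a * X f + (a + b) := by
      rw [hX]
      simp only
      set y := TW w (2 * s) s (pp (2 * s) 0 f)
      have := Nat.lt_mul_div_succ (y - b) (show 0 < a by omega)
      rw [mul_add, mul_one] at this
      omega
    exact_mod_cast h9
  have h11 : ∑ f ∈ PL N, (TW w (2 * s) s (pp (2 * s) 0 f) : ℝ) ≤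
      a / Real.log 2 * ∑ f ∈ PL N, Real.log ((2 : ℝ) ^ X f) + (PL N).card * (a + b) := by
    calc _ ≤ ∑ f ∈ PL N, (a / Real.log 2 * Real.log ((2 : ℝ) ^ X f) + ((a : ℝ) + b)) :=
          Finset.sum_le_sum (fun f _ => h8 f)
      _ = _ := by
          rw [Finset.sum_add_distrib, ← Finset.mul_sum, Finset.sum_const, nsmul_eq_mul]
  refine h11.trans ?_
  have h12 : ∑ f ∈ PL N, Real.log ((2 : ℝ) ^ X f) ≤ (PL N).card * (1.2 + l + 2 * K' *
        Real.log s ^ p + K * Real.log ((2 * s : ℕ) : ℝ) ^ p) := by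
    refine h3.trans (mul_le_mul_of_nonneg_left ?_ hcn)
    linarith
  have h13 : a / Real.log 2 * ∑ f ∈ PL N, Real.log ((2 : ℝ) ^ X f) ≤
      a / Real.log 2 * ((PL N).card * (1.2 + l + 2 * K' *
        Real.log s ^ p + K * Real.log ((2 * s : ℕ) : ℝ) ^ p)) := by
    have hl2 := log_two_bd.1
    exact mul_le_mul_of_nonneg_left h12 (by positivity)
  refine (add_le_add_left h13 _).trans ?_
  have h14 : a / Real.log 2 ≤ (a : ℝ) * 1.5 := by
    have hl2 := log_two_bd.1
    rw [div_le_iff₀ (by linarith)]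
    nlinarith
  have h15 : 1.2 + l + 2 * K' * Real.log s ^ p + K * Real.log ((2 * s : ℕ) : ℝ) ^ p ≤
      (1 + l) * ((1.2 * E + 2 * K' + 2 * (K * cP p)) * Real.log s ^ p) := by
    have e2 := mul_le_mul_of_nonneg_left hL4 hK
    have e5 : (1 + l) * ((1.2 * E + 2 * K' + 2 * (K * cP p)) * Real.log s ^ p) =
        1.2 * (E * Real.log s ^ p) + 2 * K' * Real.log s ^ p +
        K * (2 * cP p * Real.log s ^ p) + l * (1.2 * (E * Real.log s ^ p)) +
        l * ((2 * K' + 2 * (K * cP p)) * Real.log s ^ p) := by ring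
    rw [e5]
    have e6 : l ≤ l * (1.2 * (E * Real.log s ^ p)) := by nlinarith
    have e7 : 0 ≤ l * ((2 * K' + 2 * (K * cP p)) * Real.log s ^ p) := by positivity
    linarith
  have h16 : (0 : ℝ) ≤ Real.log ((2 * s : ℕ) : ℝ) := Real.log_natCast_nonneg _
  calc a / Real.log 2 * ((PL N).card * (1.2 + l + 2 * K' *
        Real.log s ^ p + K * Real.log ((2 * s : ℕ) : ℝ) ^ p)) +
        (PL N).card * ((a : ℝ) + b)
      ≤ a * 1.5 * ((PL N).card * ((1 + l) * ((1.2 * E + 2 * K' + 2 * (K * cP p)) *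
          Real.log s ^ p))) +
        (PL N).card * (((a : ℝ) + b) * ((1 + l) * (E * Real.log s ^ p))) := by
        refine add_le_add ?_ ?_
        · gcongr
        · refine mul_le_mul_of_nonneg_left ?_ hcn
          have e8 : (1 : ℝ) ≤ (1 + l) * (E * Real.log s ^ p) := by nlinarith
          nlinarith
    _ ≤ ((a : ℝ) + b) * 1.5 * ((PL N).card * ((1 + l) * ((1.2 * E + 2 * K' + 2 * (K * cP p)) *
          Real.log s ^ p))) +
        (PL N).card * (((a : ℝ) + b) * ((1 + l) * (E * Real.log s ^ p))) := by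
        refine add_le_add ?_ le_rfl
        refine mul_le_mul_of_nonneg_right ?_ (by positivity)
        linarith
    _ = (2.8 * E + 3 * K' + 3 * (K * cP p)) * (MM a b C * ((PL N).card * Real.log s ^ p)) := by
        unfold MM
        ring
    _ ≤ (5 * E + 3 * K' + 3 * (K * cP p)) * (MM a b C * ((PL N).card * Real.log s ^ p)) := by
        have h17 := MM_pos (b := b) (C := C) ha
        refine mul_le_mul_of_nonneg_right ?_ (by positivity)
        linarith
    _ = _ := by ring

end Run7.h647.TY
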